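import Mathlib

/-!
# Regular trees: distances, and automorphisms moving any directed edge to any other
-/

set_option autoImplicit false

open Set

namespace Pool.Agent.FinDep

variable {V : Type} {G : SimpleGraph V}

/-- the first step of a shortest path -/
theorem first_step (hc : G.Connected) {x y : V} (h : x ≠ y) :
    ∃ z, G.Adj x z ∧ G.dist x y = G.dist z y + 1 := by
  obtain ⟨p, hp⟩ := hc.exists_walk_length_eq_dist x y
  cases p with
  | nil => exact absurd rfl h
  | cons hxz p =>
    rename_i z
    simp only [SimpleGraph.Walk.length_cons] at hp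
    have h1 := G.dist_le p
    have h2 : G.dist x z = 1 := SimpleGraph.dist_eq_one_iff_adj.2 hxz
    have h3 := hc.dist_triangle (u := x) (v := z) (w := y)
    exact ⟨z, hxz, by omega⟩

/-- every vertex other than the root has a parent -/
theorem exists_parent (hc : G.Connected) {o v : V} (h : v ≠ o) :
    ∃ y, G.Adj y v ∧ G.dist o v = G.dist o y + 1 := by
  obtain ⟨z, hz, e⟩ := first_step hc h
  refine ⟨z, hz.symm, ?_⟩
  rw [G.dist_comm (u := o) (v := v), G.dist_comm (u := o) (v := z)]
  exact e

theorem tree_parent (hT : G.IsTree) {o v y y' : V} (h1 : G.Adj y v) (h2 : G.Adj y' v)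
    (e1 : G.dist o v = G.dist o y + 1) (e2 : G.dist o v = G.dist o y' + 1) : y = y' := by
  have hc := hT.1
  obtain ⟨p, hp⟩ := hc.exists_walk_length_eq_dist o y
  obtain ⟨q, hq⟩ := hc.exists_walk_length_eq_dist o y'
  have hp' : (p.concat h1).IsPath := by
    apply SimpleGraph.Walk.isPath_of_length_eq_dist
    rw [SimpleGraph.Walk.length_concat]
    omega
  have hq' : (q.concat h2).IsPath := by
    apply SimpleGraph.Walk.isPath_of_length_eq_dist
    rw [SimpleGraph.Walk.length_concat]
    omega
  have := (hT.2.subsingleton_path _ _).elim (⟨_, hp'⟩ : G.Path o v) ⟨_, hq'⟩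
  have h3 : p.concat h1 = q.concat h2 := congrArg Subtype.val this
  have h4 := congrArg SimpleGraph.Walk.penultimate h3
  simpa using h4

theorem tree_dist_adj (hT : G.IsTree) {x y : V} (h : G.Adj x y) (w : V) :
    G.dist w y = G.dist w x + 1 ∨ G.dist w x = G.dist w y + 1 := by
  rcases hT.dist_eq_dist_add_one_of_adj w h with h | h
  · exact Or.inr h
  · exact Or.inl h

/-- the two sides of an edge -/
theorem side (hT : G.IsTree) {x y : V} (h : G.Adj x y) (z : V) :
    G.dist y z = G.dist x z + 1 ∨ G.dist x z = G.dist y z + 1 := by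
  have := tree_dist_adj hT h z
  rwa [G.dist_comm (u := z) (v := x), G.dist_comm (u := z) (v := y)] at this

/-- distances across an edge -/
theorem dist_across (hT : G.IsTree) {x y : V} (hxy : G.Adj x y) : ∀ (n : ℕ) (z z' : V),
    G.dist x z = n → G.dist y z = G.dist x z + 1 → G.dist x z' = G.dist y z' + 1 →
    G.dist z z' = G.dist x z + 1 + G.dist y z' := by
  have hc := hT.1
  intro n
  induction n using Nat.strong_induction_on with
  | _ n ih =>
    intro z z' hn h1 h2
    by_cases hzx : z = x
    · subst hzx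
      simp only [SimpleGraph.dist_self]
      omega
    · obtain ⟨z1, hz1, e1⟩ := exists_parent hc (o := x) hzx
      have hy1 : G.dist y z1 = G.dist x z1 + 1 := by
        have t1 := hc.dist_triangle (u := y) (v := z1) (w := z)
        have t2 : G.dist z1 z = 1 := SimpleGraph.dist_eq_one_iff_adj.2 hz1
        rcases side hT hxy z1 with h | h
        · exact h
        · omega
      have ih1 := ih (G.dist x z1) (by omega) z1 z' rfl hy1 h2
      rcases tree_dist_adj hT hz1 z' with h3 | h3
      · rw [G.dist_comm (u := z) (v := z'), h3, G.dist_comm (u := z') (v := z1), ih1]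
        omega
      · exfalso
        -- `z` would be the neighbour of `z1` towards `z'`
        obtain ⟨z2, hz2, e2, e3⟩ : ∃ z2, G.Adj z2 z1 ∧ G.dist z' z1 = G.dist z' z2 + 1 ∧
            (z2 = y ∨ G.dist x z1 = G.dist x z2 + 1) := by
          by_cases hz1x : z1 = x
          · subst hz1x
            refine ⟨y, hxy.symm, ?_, Or.inl rfl⟩
            rw [G.dist_comm (u := z') (v := z1), G.dist_comm (u := z') (v := y)]
            exact h2
          · obtain ⟨z2, hz2, e2⟩ := exists_parent hc (o := x) hz1x
            have hy2 : G.dist y z2 = G.dist x z2 + 1 := by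
              have t1 := hc.dist_triangle (u := y) (v := z2) (w := z1)
              have t2 : G.dist z2 z1 = 1 := SimpleGraph.dist_eq_one_iff_adj.2 hz2
              rcases side hT hxy z2 with h | h
              · exact h
              · omega
            have ih2 := ih (G.dist x z2) (by omega) z2 z' rfl hy2 h2
            refine ⟨z2, hz2, ?_, Or.inr e2⟩
            rw [G.dist_comm (u := z') (v := z1), G.dist_comm (u := z') (v := z2), ih1, ih2]
            omega
        have : z = z2 := tree_parent hT (o := z') hz1.symm hz2 h3 e2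
        rcases e3 with e3 | e3
        · rw [this, e3] at h1
          simp at h1
        · rw [← this] at e3
          omega

/-- distances between two branches -/
theorem dist_branch (hT : G.IsTree) {o w w' : V} (hw : G.Adj w o) (hw' : G.Adj w' o)
    (hne : w ≠ w') {z z' : V} (h1 : G.dist o z = G.dist w z + 1)
    (h2 : G.dist o z' = G.dist w' z' + 1) : G.dist z z' = G.dist o z + G.dist o z' := by
  have h3 : G.dist w z' = G.dist o z' + 1 := by
    rcases side hT hw z' with h | h
    · exfalso
      apply hne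
      refine tree_parent hT (o := z') hw hw' ?_ ?_
      · rw [G.dist_comm (u := z') (v := o), G.dist_comm (u := z') (v := w)]; exact h
      · rw [G.dist_comm (u := z') (v := o), G.dist_comm (u := z') (v := w')]; exact h2
    · exact h
  rw [dist_across hT hw _ z z' rfl h1 h3, h1]

/-! ### Automorphisms -/

/-- partial isomorphisms from `(G, x)` to `(G, x')`: parent-closed sets of pairs -/
structure PIso (G : SimpleGraph V) (x x' : V) (R : Set (V × V)) : Prop where
  inj : ∀ p ∈ R, ∀ p' ∈ R, (p.1 = p'.1 ↔ p.2 = p'.2)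
  adj : ∀ p ∈ R, ∀ p' ∈ R, (G.Adj p.1 p'.1 ↔ G.Adj p.2 p'.2)
  dist : ∀ p ∈ R, G.dist x p.1 = G.dist x' p.2
  par : ∀ p ∈ R, p.1 = x ∨ ∃ p' ∈ R, G.Adj p'.1 p.1 ∧ G.dist x p.1 = G.dist x p'.1 + 1

theorem PIso.swap (hT : G.IsTree) {x x' : V} {R : Set (V × V)} (h : PIso G x x' R) :
    PIso G x' x (Prod.swap '' R) where
  inj := by
    rintro _ ⟨p, hp, rfl⟩ _ ⟨p', hp', rfl⟩
    exact (h.inj p hp p' hp').symm
  adj := by
    rintro _ ⟨p, hp, rfl⟩ _ ⟨p', hp', rfl⟩
    exact (h.adj p hp p' hp').symm
  dist := by
    rintro _ ⟨p, hp, rfl⟩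
    exact (h.dist p hp).symm
  par := by
    rintro _ ⟨p, hp, rfl⟩
    rcases h.par p hp with h1 | ⟨p', hp', h2, h3⟩
    · left
      have := h.dist p hp
      rw [h1, SimpleGraph.dist_self] at this
      exact ((hT.1.dist_eq_zero_iff).1 this.symm).symm
    · right
      refine ⟨p'.swap, ⟨p', hp', rfl⟩, (h.adj p' hp' p hp).1 h2, ?_⟩
      show G.dist x' p.2 = G.dist x' p'.2 + 1
      rw [← h.dist p hp, ← h.dist p' hp', h3]

theorem PIso.extend (hT : G.IsTree) {d : ℕ} (hd : 1 ≤ d)
    (hreg : ∀ v, (G.neighborSet v).ncard = d) {x x' : V} {R : Set (V × V)}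
    (h : PIso G x x' R) (hxx : (x, x') ∈ R) {a a1 b1 : V} (ha : ∀ b, (a, b) ∉ R)
    (h1 : (a1, b1) ∈ R) (hadj : G.Adj a1 a) (hdist : G.dist x a = G.dist x a1 + 1) :
    ∃ b, PIso G x x' (insert (a, b) R) := by
  have hfin : ∀ v, (G.neighborSet v).Finite := fun v =>
    Set.finite_of_ncard_pos (by rw [hreg v]; omega)
  obtain ⟨b, hb, hbR⟩ : ∃ b ∈ G.neighborSet b1, ∀ c, (c, b) ∉ R := by
    by_contra hcon
    push Not at hcon
    choose! f hf using hcon
    have h2 : (G.neighborSet b1).ncard ≤ (G.neighborSet a1 \ {a}).ncard := by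
      refine Set.ncard_le_ncard_of_injOn f (fun b hb => ?_) (fun b hb b' hb' hbb => ?_)
        ((hfin a1).subset Set.sdiff_subset)
      · have h3 := hf b hb
        refine ⟨(h.adj (a1, b1) h1 _ h3).2 hb, fun h4 => ?_⟩
        rw [Set.mem_singleton_iff] at h4
        rw [h4] at h3
        exact ha b h3
      · exact (h.inj _ (hf b hb) _ (hf b' hb')).1 hbb
    rw [Set.ncard_sdiff_singleton_of_mem (show a ∈ G.neighborSet a1 from hadj), hreg, hreg] at h2
    omega
  have hb' : G.Adj b1 b := hb
  -- neighbours of `a` in the domain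
  have F1 : ∀ c e, (c, e) ∈ R → G.Adj a c → c = a1 := by
    intro c e hce hac
    rcases tree_dist_adj hT hac x with h2 | h2
    · exfalso
      rcases h.par _ hce with h3 | ⟨p, hp, h3, h4⟩
      · simp only at h3
        rw [h3, SimpleGraph.dist_self] at h2
        omega
      · simp only at h3 h4
        have : p.1 = a := tree_parent hT h3 hac h4 h2
        exact ha p.2 (by rw [← this]; exact hp)
    · exact tree_parent hT hac.symm hadj h2 hdist
  have F2 : G.dist x' b = G.dist x' b1 + 1 := by
    rcases tree_dist_adj hT hb' x' with h2 | h2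
    · exact h2
    · exfalso
      rcases h.par _ h1 with h3 | ⟨p, hp, h3, h4⟩
      · simp only at h3
        have h5 : x' = b1 := (h.inj _ hxx _ h1).1 h3.symm
        rw [h5, SimpleGraph.dist_self] at h2
        omega
      · simp only at h3 h4
        have h5 : G.Adj p.2 b1 := (h.adj _ hp _ h1).1 h3
        have h6 : G.dist x' b1 = G.dist x' p.2 + 1 := by
          have e1 := h.dist _ h1
          have e2 := h.dist _ hp
          simp only at e1 e2
          omega
        have : p.2 = b := tree_parent hT h5 hb'.symm h6 h2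
        exact hbR p.1 (by rw [← this]; exact hp)
  have F3 : ∀ c e, (c, e) ∈ R → G.Adj b e → e = b1 := by
    intro c e hce hbe
    rcases tree_dist_adj hT hbe x' with h2 | h2
    · exfalso
      rcases h.par _ hce with h3 | ⟨p, hp, h3, h4⟩
      · simp only at h3
        have h5 : x' = e := (h.inj _ hxx _ hce).1 h3.symm
        rw [← h5, SimpleGraph.dist_self] at h2
        omega
      · simp only at h3 h4
        have h5 : G.Adj p.2 e := (h.adj _ hp _ hce).1 h3
        have h6 : G.dist x' e = G.dist x' p.2 + 1 := by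
          have e1 := h.dist _ hce
          have e2 := h.dist _ hp
          simp only at e1 e2
          omega
        have : p.2 = b := tree_parent hT h5 hbe h6 h2
        exact hbR p.1 (by rw [← this]; exact hp)
    · exact tree_parent hT hbe.symm hb' h2 F2
  have K : ∀ p ∈ R, (G.Adj a p.1 ↔ G.Adj b p.2) := by
    intro p hp
    constructor
    · intro h2
      have h3 := F1 p.1 p.2 hp h2
      have h4 : p.2 = b1 := (h.inj _ hp _ h1).1 h3
      rw [h4]; exact hb'.symm
    · intro h2
      have h3 := F3 p.1 p.2 hp h2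
      have h4 : p.1 = a1 := (h.inj _ hp _ h1).2 h3
      rw [h4]; exact hadj.symm
  have K' : ∀ p ∈ R, (a = p.1 ↔ b = p.2) := by
    intro p hp
    constructor
    · intro h2
      exact absurd (by rw [h2]; exact hp) (ha p.2)
    · intro h2
      exact absurd (by rw [h2]; exact hp) (hbR p.1)
  refine ⟨b, ⟨?_, ?_, ?_, ?_⟩⟩
  · rintro p (rfl | hp) p' (rfl | hp')
    · simp
    · exact K' p' hp'
    · have := K' p hp
      constructor
      · intro h2; exact (this.1 h2.symm).symm
      · intro h2; exact (this.2 h2.symm).symm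
    · exact h.inj p hp p' hp'
  · rintro p (rfl | hp) p' (rfl | hp')
    · simp
    · exact K p' hp'
    · have := K p hp
      show G.Adj p.1 a ↔ G.Adj p.2 b
      rw [G.adj_comm p.1 a, G.adj_comm p.2 b]
      exact this
    · exact h.adj p hp p' hp'
  · rintro p (rfl | hp)
    · show G.dist x a = G.dist x' b
      have := h.dist _ h1
      simp only at this
      omega
    · exact h.dist p hp
  · rintro p (rfl | hp)
    · right
      exact ⟨(a1, b1), Or.inr h1, hadj, hdist⟩
    · rcases h.par p hp with h2 | ⟨p', hp', h2, h3⟩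
      · left; exact h2
      · right; exact ⟨p', Or.inr hp', h2, h3⟩

/-- in a regular tree the automorphism group is transitive on directed edges -/
theorem exists_auto (hT : G.IsTree) {d : ℕ} (hd : 1 ≤ d)
    (hreg : ∀ v, (G.neighborSet v).ncard = d) {x y x' y' : V} (hxy : G.Adj x y)
    (hxy' : G.Adj x' y') : ∃ g : G ≃g G, g x = x' ∧ g y = y' := by
  have hc := hT.1
  set R₀ : Set (V × V) := {(x, x'), (y, y')} with hR₀
  have h₀ : PIso G x x' R₀ := by
    have d1 : G.dist x y = 1 := SimpleGraph.dist_eq_one_iff_adj.2 hxy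
    have d2 : G.dist x' y' = 1 := SimpleGraph.dist_eq_one_iff_adj.2 hxy'
    have n1 := hxy.ne
    have n2 := hxy'.ne
    refine ⟨?_, ?_, ?_, ?_⟩
    · rintro p (rfl | rfl) p' (rfl | rfl)
      · simp
      · exact ⟨fun h => absurd h n1, fun h => absurd h n2⟩
      · exact ⟨fun h => absurd h.symm n1, fun h => absurd h.symm n2⟩
      · simp
    · rintro p (rfl | rfl) p' (rfl | rfl)
      · simp
      · exact ⟨fun _ => hxy', fun _ => hxy⟩
      · exact ⟨fun _ => hxy'.symm, fun _ => hxy.symm⟩
      · simp
    · rintro p (rfl | rfl)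
      · simp
      · show G.dist x y = G.dist x' y'
        rw [d1, d2]
    · rintro p (rfl | rfl)
      · left; rfl
      · right
        refine ⟨(x, x'), Or.inl rfl, hxy, ?_⟩
        show G.dist x y = G.dist x x + 1
        rw [d1, SimpleGraph.dist_self]
  obtain ⟨R, hR₀R, hmax⟩ := zorn_subset_nonempty {R | PIso G x x' R}
    (fun c hcS hchain hne => by
      refine ⟨⋃₀ c, ?_, fun s hs => Set.subset_sUnion_of_mem hs⟩
      have two : ∀ p ∈ ⋃₀ c, ∀ p' ∈ ⋃₀ c, ∃ R ∈ c, p ∈ R ∧ p' ∈ R := by
        rintro p ⟨R1, hR1, hp⟩ p' ⟨R2, hR2, hp'⟩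
        rcases hchain.total hR1 hR2 with h1 | h1
        · exact ⟨R2, hR2, h1 hp, hp'⟩
        · exact ⟨R1, hR1, hp, h1 hp'⟩
      refine ⟨?_, ?_, ?_, ?_⟩
      · intro p hp p' hp'
        obtain ⟨R, hR, h1, h2⟩ := two p hp p' hp'
        exact (hcS hR).inj p h1 p' h2
      · intro p hp p' hp'
        obtain ⟨R, hR, h1, h2⟩ := two p hp p' hp'
        exact (hcS hR).adj p h1 p' h2
      · rintro p ⟨R, hR, hp⟩
        exact (hcS hR).dist p hp
      · rintro p ⟨R, hR, hp⟩
        rcases (hcS hR).par p hp with h1 | ⟨p', hp', h2, h3⟩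
        · left; exact h1
        · right; exact ⟨p', ⟨R, hR, hp'⟩, h2, h3⟩) R₀ h₀
  have hR : PIso G x x' R := hmax.1
  have hxx : (x, x') ∈ R := hR₀R (Or.inl rfl)
  have hyy : (y, y') ∈ R := hR₀R (Or.inr rfl)
  have hmax' : ∀ R', PIso G x x' R' → R ⊆ R' → R' ⊆ R := fun R' h1 h2 => hmax.2 h1 h2
  have hdom : ∀ (n : ℕ) (a : V), G.dist x a = n → ∃ b, (a, b) ∈ R := by
    intro n
    induction n with
    | zero =>
      intro a h1
      rw [← (hc.dist_eq_zero_iff).1 h1]
      exact ⟨x', hxx⟩
    | succ n ih =>
      intro a h1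
      by_contra hcon
      push Not at hcon
      have hax : a ≠ x := by
        rintro rfl
        simp at h1
      obtain ⟨a1, h2, h3⟩ := exists_parent hc hax
      obtain ⟨b1, h4⟩ := ih a1 (by omega)
      obtain ⟨b, h5⟩ := hR.extend hT hd hreg hxx hcon h4 h2 h3
      exact hcon b (hmax' _ h5 (Set.subset_insert _ _) (Set.mem_insert _ _))
  have hran : ∀ (n : ℕ) (b : V), G.dist x' b = n → ∃ a, (a, b) ∈ R := by
    intro n
    induction n with
    | zero =>
      intro b h1
      rw [← (hc.dist_eq_zero_iff).1 h1]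
      exact ⟨x, hxx⟩
    | succ n ih =>
      intro b h1
      by_contra hcon
      push Not at hcon
      have hbx : b ≠ x' := by
        rintro rfl
        simp at h1
      obtain ⟨b1, h2, h3⟩ := exists_parent hc hbx
      obtain ⟨a1, h4⟩ := ih b1 (by omega)
      have hsw := hR.swap hT
      obtain ⟨a, h5⟩ := hsw.extend hT hd hreg ⟨(x, x'), hxx, rfl⟩ (a := b) (a1 := b1) (b1 := a1)
        (by
          rintro a ⟨p, hp, he⟩
          have : p = (a, b) := by
            rw [← Prod.swap_swap p, he]; rfl
          rw [this] at hp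
          exact hcon a hp) ⟨(a1, b1), h4, rfl⟩ h2 h3
      have h6 := h5.swap hT
      have h7 : Prod.swap '' insert (b, a) (Prod.swap '' R) = insert (a, b) R := by
        rw [Set.image_insert_eq, Set.image_image]
        simp
      rw [h7] at h6
      exact hcon a (hmax' _ h6 (Set.subset_insert _ _) (Set.mem_insert _ _))
  choose f hf using fun a => hdom _ a rfl
  choose f' hf' using fun b => hran _ b rfl
  have hff' : ∀ b, f (f' b) = b := fun b => (hR.inj _ (hf (f' b)) _ (hf' b)).1 rfl
  have hf'f : ∀ a, f' (f a) = a := fun a => (hR.inj _ (hf' (f a)) _ (hf a)).2 rfl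
  refine ⟨⟨⟨f, f', hf'f, hff'⟩, ?_⟩, ?_, ?_⟩
  · intro a b
    exact (hR.adj _ (hf a) _ (hf b)).symm
  · exact (hR.inj _ (hf x) _ hxx).1 rfl
  · exact (hR.inj _ (hf y) _ hyy).1 rfl

/-- automorphisms preserve distances -/
theorem dist_auto (hc : G.Connected) (g : G ≃g G) (u v : V) :
    G.dist (g u) (g v) = G.dist u v := by
  have h1 : ∀ (g : G ≃g G) (u v : V), G.dist (g u) (g v) ≤ G.dist u v := by
    intro g u v
    obtain ⟨p, hp⟩ := hc.exists_walk_length_eq_dist u v
    have := G.dist_le (p.map g.toHom)
    rw [SimpleGraph.Walk.length_map, hp] at this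
    exact this
  refine le_antisymm (h1 g u v) ?_
  have := h1 g.symm (g u) (g v)
  simpa using this

/-- balls are finite -/
theorem ball_finite {d : ℕ} (hd : 1 ≤ d) (hc : G.Connected)
    (hreg : ∀ v, (G.neighborSet v).ncard = d) (o : V) (n : ℕ) :
    {z | G.dist o z ≤ n}.Finite := by
  have hfin : ∀ v, (G.neighborSet v).Finite := fun v =>
    Set.finite_of_ncard_pos (by rw [hreg v]; omega)
  induction n with
  | zero =>
    refine (Set.finite_singleton o).subset (fun z hz => ?_)
    have : G.dist o z = 0 := Nat.le_zero.1 hz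
    exact ((hc.dist_eq_zero_iff).1 this).symm
  | succ n ih =>
    refine (ih.union (ih.biUnion (fun z _ => hfin z))).subset (fun z hz => ?_)
    by_cases h1 : G.dist o z ≤ n
    · exact Or.inl h1
    · right
      have hzo : z ≠ o := by
        rintro rfl
        simp at h1
      obtain ⟨y, hy, e⟩ := exists_parent hc hzo
      have hz' : G.dist o z ≤ n + 1 := hz
      exact Set.mem_biUnion (show G.dist o y ≤ n by omega) hy

end Pool.Agent.FinDep
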