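import Mathlib
import Pool.Agent.Lib.MP_d9cd68_pr.Tree

/-!
# Invariant polymatroids on a regular tree with finite-range additivity
-/

set_option autoImplicit false

open Set Filter Topology

namespace Pool.Agent.FinDep

variable {V : Type} {G : SimpleGraph V}

/-- the properties of the entropy of the restrictions to finite sets that are used -/
structure Poly (G : SimpleGraph V) (m : ℕ) (H : Set V → ℝ) : Prop where
  empty : H ∅ = 0
  mono : ∀ A B : Set V, B.Finite → A ⊆ B → H A ≤ H B
  submod : ∀ A B : Set V, A.Finite → B.Finite → H (A ∪ B) + H (A ∩ B) ≤ H A + H B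
  inv : ∀ (g : G ≃g G) (A : Set V), A.Finite → H (g '' A) = H A
  add : ∀ A B : Set V, A.Finite → B.Finite → (∀ a ∈ A, ∀ b ∈ B, m < G.dist a b) →
    H (A ∪ B) = H A + H B

variable {m : ℕ} {H : Set V → ℝ}

/-- decreasing marginal gains -/
theorem Poly.gain (P : Poly G m H) {A T K : Set V} (hT : T.Finite) (hK : K.Finite) (h : A ⊆ T) :
    H (T ∪ K) + H A ≤ H (A ∪ K) + H T := by
  have hA := hT.subset h
  have h1 := P.submod (A ∪ K) T (hA.union hK) hT
  have h2 : (A ∪ K) ∪ T = T ∪ K := by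
    ext z
    simp only [mem_union]
    constructor
    · rintro ((h3 | h3) | h3)
      · exact Or.inl (h h3)
      · exact Or.inr h3
      · exact Or.inl h3
    · rintro (h3 | h3)
      · exact Or.inr h3
      · exact Or.inl (Or.inr h3)
  have h3 := P.mono A ((A ∪ K) ∩ T) (hT.subset inter_subset_right)
    (subset_inter subset_union_left h)
  rw [h2] at h1
  linarith

theorem Poly.add_family (P : Poly G m H) (s : Finset V) (K : V → Set V)
    (hK : ∀ i ∈ s, (K i).Finite)
    (hsep : ∀ i ∈ s, ∀ i' ∈ s, i ≠ i' → ∀ a ∈ K i, ∀ b ∈ K i', m < G.dist a b) :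
    H (⋃ i ∈ s, K i) = ∑ i ∈ s, H (K i) := by
  classical
  induction s using Finset.induction_on with
  | empty => simp [P.empty]
  | insert a s ha ih =>
    rw [Finset.set_biUnion_insert, Finset.sum_insert ha, P.add, ih]
    · intro i hi
      exact hK i (Finset.mem_insert_of_mem hi)
    · intro i hi i' hi'
      exact hsep i (Finset.mem_insert_of_mem hi) i' (Finset.mem_insert_of_mem hi')
    · exact hK a (Finset.mem_insert_self _ _)
    · exact s.finite_toSet.biUnion (fun i hi => hK i (Finset.mem_insert_of_mem hi))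
    · intro z hz z' hz'
      obtain ⟨i, hi, hz'⟩ := Set.mem_iUnion₂.1 hz'
      exact hsep a (Finset.mem_insert_self _ _) i (Finset.mem_insert_of_mem hi)
        (by rintro rfl; exact ha hi) z hz z' hz'

/-- adding a family of sets one at a time, lower bound -/
theorem Poly.gain_family (P : Poly G m H) (s : Finset V) (K : V → Set V) (W : Set V) (κ : ℝ)
    (T : V → Set V) (hK : ∀ i ∈ s, (K i).Finite) (hT : ∀ i ∈ s, (T i).Finite)
    (hW : W.Finite) (hWT : ∀ i ∈ s, W ⊆ T i)
    (hKT : ∀ i ∈ s, ∀ i' ∈ s, i ≠ i' → K i' ⊆ T i)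
    (hκ : ∀ i ∈ s, κ ≤ H (T i ∪ K i) - H (T i)) :
    (s.card : ℝ) * κ ≤ H (W ∪ ⋃ i ∈ s, K i) - H W := by
  classical
  induction s using Finset.induction_on with
  | empty => simp
  | insert a s ha ih =>
    have ih1 := ih (fun i hi => hK i (Finset.mem_insert_of_mem hi))
      (fun i hi => hT i (Finset.mem_insert_of_mem hi))
      (fun i hi => hWT i (Finset.mem_insert_of_mem hi))
      (fun i hi i' hi' => hKT i (Finset.mem_insert_of_mem hi) i' (Finset.mem_insert_of_mem hi'))
      (fun i hi => hκ i (Finset.mem_insert_of_mem hi))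
    have h1 : W ∪ ⋃ i ∈ s, K i ⊆ T a := by
      apply union_subset (hWT a (Finset.mem_insert_self _ _))
      intro z hz
      obtain ⟨i, hi, hz⟩ := Set.mem_iUnion₂.1 hz
      exact hKT a (Finset.mem_insert_self _ _) i (Finset.mem_insert_of_mem hi)
        (by rintro rfl; exact ha hi) hz
    have h2 := P.gain (hT a (Finset.mem_insert_self _ _)) (hK a (Finset.mem_insert_self _ _)) h1
    have h3 := hκ a (Finset.mem_insert_self _ _)
    have h4 : W ∪ ⋃ i ∈ insert a s, K i = (W ∪ ⋃ i ∈ s, K i) ∪ K a := by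
      rw [Finset.set_biUnion_insert, union_assoc, union_comm (K a)]
    rw [h4, Finset.card_insert_of_notMem ha]
    push_cast
    linarith

/-- a family of sets with the same pairwise intersections, upper bound -/
theorem Poly.sunflower (P : Poly G m H) (s : Finset V) (hs : s.Nonempty) (K : V → Set V)
    (B : Set V) (hK : ∀ i ∈ s, (K i).Finite) (hB : ∀ i ∈ s, B ⊆ K i)
    (hKK : ∀ i ∈ s, ∀ i' ∈ s, i ≠ i' → K i ∩ K i' ⊆ B) :
    H (⋃ i ∈ s, K i) ≤ ∑ i ∈ s, H (K i) - ((s.card : ℝ) - 1) * H B := by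
  classical
  induction hs using Finset.Nonempty.cons_induction with
  | singleton a => simp
  | cons a s ha hs ih =>
    have ih1 := ih (fun i hi => hK i (Finset.mem_cons_of_mem hi))
      (fun i hi => hB i (Finset.mem_cons_of_mem hi))
      (fun i hi i' hi' => hKK i (Finset.mem_cons_of_mem hi) i' (Finset.mem_cons_of_mem hi'))
    have hfin : (⋃ i ∈ s, K i).Finite :=
      s.finite_toSet.biUnion (fun i hi => hK i (Finset.mem_cons_of_mem hi))
    have h1 := P.submod (K a) (⋃ i ∈ s, K i) (hK a (Finset.mem_cons_self _ _)) hfin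
    have h2 : B ⊆ K a ∩ ⋃ i ∈ s, K i := by
      apply subset_inter (hB a (Finset.mem_cons_self _ _))
      obtain ⟨i, hi⟩ := hs
      exact (hB i (Finset.mem_cons_of_mem hi)).trans (Set.subset_biUnion_of_mem (u := K) hi)
    have h3 := P.mono _ _ (hfin.subset inter_subset_right) h2
    have h4 : ⋃ i ∈ Finset.cons a s ha, K i = K a ∪ ⋃ i ∈ s, K i := by
      rw [Finset.cons_eq_insert, Finset.set_biUnion_insert]
    rw [h4, Finset.sum_cons, Finset.card_cons]
    push_cast
    linarith

/-! ### The sets -/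

/-- part of the `x`-side of the edge `xy` at distance between `a` and `b` from `x` -/
def An (G : SimpleGraph V) (a b : ℕ) (x y : V) : Set V :=
  {z | a ≤ G.dist x z ∧ G.dist x z ≤ b ∧ G.dist y z = G.dist x z + 1}

/-- the ball of radius `M` around the edge `xy`, minus the points at distance `< i` -/
def Cn (G : SimpleGraph V) (i M : ℕ) (x y : V) : Set V :=
  {z | (G.dist x z ≤ M ∨ G.dist y z ≤ M) ∧ i ≤ G.dist x z ∧ i ≤ G.dist y z}

section

variable (hT : G.IsTree) {d : ℕ} (hd : 3 ≤ d) (hreg : ∀ v, (G.neighborSet v).ncard = d)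

include hT hd hreg

theorem fin_of {A : Set V} (x y : V) (N : ℕ) (h : ∀ z ∈ A, G.dist x z ≤ N ∨ G.dist y z ≤ N) :
    A.Finite :=
  ((ball_finite (by omega) hT.1 hreg x N).union
    (ball_finite (by omega) hT.1 hreg y N)).subset h

theorem An_finite (a b : ℕ) (x y : V) : (An G a b x y).Finite :=
  fin_of hT hd hreg x y b (fun _ hz => Or.inl hz.2.1)

theorem Cn_finite (i M : ℕ) (x y : V) : (Cn G i M x y).Finite :=
  fin_of hT hd hreg x y M (fun _ hz => hz.1)

theorem transfer (P : Poly G m H) (S : ℕ → ℕ → Prop) {x y x' y' : V} (hxy : G.Adj x y)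
    (hxy' : G.Adj x' y') (hfin : {z | S (G.dist x z) (G.dist y z)}.Finite) :
    H {z | S (G.dist x' z) (G.dist y' z)} = H {z | S (G.dist x z) (G.dist y z)} := by
  obtain ⟨g, rfl, rfl⟩ := exists_auto hT (by omega) hreg hxy hxy'
  rw [← P.inv g _ hfin]
  congr 1
  ext z
  constructor
  · intro hz
    refine ⟨g.symm z, ?_, by simp⟩
    have h1 := dist_auto hT.1 g x (g.symm z)
    have h2 := dist_auto hT.1 g y (g.symm z)
    rw [RelIso.apply_symm_apply] at h1 h2
    show S _ _
    rw [← h1, ← h2]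
    exact hz
  · rintro ⟨w, hw, rfl⟩
    show S _ _
    rw [dist_auto hT.1, dist_auto hT.1]
    exact hw

theorem An_transfer (P : Poly G m H) (a b : ℕ) {x y x' y' : V} (hxy : G.Adj x y)
    (hxy' : G.Adj x' y') : H (An G a b x' y') = H (An G a b x y) :=
  transfer hT hd hreg P (fun p q => a ≤ p ∧ p ≤ b ∧ q = p + 1) hxy hxy'
    (An_finite hT hd hreg a b x y)

theorem Cn_transfer (P : Poly G m H) (i M : ℕ) {x y x' y' : V} (hxy : G.Adj x y)
    (hxy' : G.Adj x' y') : H (Cn G i M x' y') = H (Cn G i M x y) :=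
  transfer hT hd hreg P (fun p q => (p ≤ M ∨ q ≤ M) ∧ i ≤ p ∧ i ≤ q) hxy hxy'
    (Cn_finite hT hd hreg i M x y)

theorem CA_transfer (P : Poly G m H) (i M : ℕ) {x y x' y' : V} (hxy : G.Adj x y)
    (hxy' : G.Adj x' y') :
    H (Cn G (i + 1) M x' y' ∪ An G i i x' y') = H (Cn G (i + 1) M x y ∪ An G i i x y) :=
  transfer hT hd hreg P (fun p q => ((p ≤ M ∨ q ≤ M) ∧ i + 1 ≤ p ∧ i + 1 ≤ q) ∨
    (i ≤ p ∧ p ≤ i ∧ q = p + 1)) hxy hxy'
    ((Cn_finite hT hd hreg (i + 1) M x y).union (An_finite hT hd hreg i i x y))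

theorem ball_transfer (P : Poly G m H) (M : ℕ) {x y x' y' : V} (hxy : G.Adj x y)
    (hxy' : G.Adj x' y') : H {z | G.dist x' z ≤ M} = H {z | G.dist x z ≤ M} :=
  transfer hT hd hreg P (fun p _ => p ≤ M) hxy hxy'
    (fin_of hT hd hreg x x M (fun z hz => Or.inl hz))

/-- the children of `x` seen from `y` -/
theorem exists_children {x y : V} (hxy : G.Adj x y) :
    ∃ s : Finset V, (∀ w, w ∈ s ↔ G.Adj x w ∧ w ≠ y) ∧ (s.card : ℝ) = d - 1 := by
  have hfin : (G.neighborSet x).Finite :=
    Set.finite_of_ncard_pos (by rw [hreg x]; omega)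
  have hfin' : (G.neighborSet x \ {y}).Finite := hfin.subset Set.sdiff_subset
  refine ⟨hfin'.toFinset, fun w => ?_, ?_⟩
  · rw [Set.Finite.mem_toFinset]
    rfl
  · rw [← Set.ncard_eq_toFinset_card _ hfin',
      Set.ncard_sdiff_singleton_of_mem (show y ∈ G.neighborSet x from hxy), hreg,
      Nat.cast_sub (by omega), Nat.cast_one]

theorem exists_nbrs (x : V) :
    ∃ s : Finset V, (∀ w, w ∈ s ↔ G.Adj x w) ∧ s.card = d := by
  have hfin : (G.neighborSet x).Finite :=
    Set.finite_of_ncard_pos (by rw [hreg x]; omega)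
  refine ⟨hfin.toFinset, fun w => ?_, ?_⟩
  · rw [Set.Finite.mem_toFinset]
    rfl
  · rw [← Set.ncard_eq_toFinset_card _ hfin, hreg]

end

/-- the branch structure -/
theorem An_succ (hT : G.IsTree) (a b : ℕ) {x y : V} (hxy : G.Adj x y) {s : Finset V}
    (hs : ∀ w, w ∈ s ↔ G.Adj x w ∧ w ≠ y) :
    An G (a + 1) (b + 1) x y = ⋃ w ∈ s, An G a b w x := by
  ext z
  rw [Set.mem_iUnion₂]
  constructor
  · rintro ⟨h1, h2, h3⟩
    have hzx : x ≠ z := by
      rintro rfl
      simp at h1
    obtain ⟨w, hw, e⟩ := first_step hT.1 hzx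
    refine ⟨w, (hs w).2 ⟨hw, ?_⟩, ?_, ?_, ?_⟩
    · rintro rfl
      omega
    · omega
    · omega
    · exact e
  · rintro ⟨w, hw, h1, h2, h3⟩
    obtain ⟨hw1, hw2⟩ := (hs w).1 hw
    refine ⟨by omega, by omega, ?_⟩
    rcases side hT hxy z with h | h
    · exact h
    · exfalso
      apply hw2
      refine tree_parent hT (o := z) hw1.symm hxy.symm ?_ ?_
      · rw [G.dist_comm (u := z) (v := x), G.dist_comm (u := z) (v := w)]; exact h3
      · rw [G.dist_comm (u := z) (v := x), G.dist_comm (u := z) (v := y)]; exact h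

section

variable (hT : G.IsTree) {d : ℕ} (hd : 3 ≤ d) (hreg : ∀ v, (G.neighborSet v).ncard = d)
  (P : Poly G m H)

include hT hd hreg P

/-- a level: `H (An (l+1) (M+1)) = (d-1) H (An l M)` for `2 l + 2 > m` -/
theorem level {x y : V} (hxy : G.Adj x y) {l : ℕ} (hl : m ≤ 2 * l) (M : ℕ) :
    H (An G (l + 1) (M + 1) x y) = (d - 1) * H (An G l M x y) := by
  obtain ⟨s, hs, hcard⟩ := exists_children hT hd hreg hxy
  rw [An_succ hT l M hxy hs, P.add_family s]
  · rw [Finset.sum_congr rfl (fun w hw => An_transfer hT hd hreg P l M hxy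
      (((hs w).1 hw).1.symm)), Finset.sum_const, nsmul_eq_mul, hcard]
  · intro w _
    exact An_finite hT hd hreg _ _ _ _
  · intro w hw w' hw' hne a ha b hb
    have h1 := dist_branch hT ((hs w).1 hw).1.symm ((hs w').1 hw').1.symm hne ha.2.2 hb.2.2
    have h2 := ha.1
    have h3 := hb.1
    have h4 := ha.2.2
    have h5 := hb.2.2
    omega

theorem Cn_eq {x y : V} (hxy : G.Adj x y) {j : ℕ} (hj : m ≤ 2 * j) (M : ℕ) :
    H (Cn G j M x y) = 2 * H (An G j M x y) := by
  have h1 : Cn G j M x y = An G j M x y ∪ An G j M y x := by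
    ext z
    have := side hT hxy z
    simp only [Cn, An, mem_ofPred_eq, mem_union]
    omega
  rw [h1, P.add _ _ (An_finite hT hd hreg _ _ _ _) (An_finite hT hd hreg _ _ _ _),
    An_transfer hT hd hreg P j M hxy hxy.symm]
  · ring
  · intro a ha b hb
    have h2 := dist_across hT hxy _ a b rfl ha.2.2 hb.2.2
    have h3 := ha.1
    have h4 := hb.1
    omega

theorem ball_le {x y : V} (hxy : G.Adj x y) {j : ℕ} (hj : m ≤ 2 * j) {M : ℕ} (hM : j ≤ M) :
    H {z | G.dist x z ≤ M + 1} + H (Cn G j M x y) ≤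
      H (An G j (M + 1) x y) + H (An G j M x y) + H (Cn G 0 M x y) := by
  have h1 := P.gain (A := Cn G j M x y) (T := An G j (M + 1) x y ∪ An G j M y x)
    (K := Cn G 0 M x y) ((An_finite hT hd hreg _ _ _ _).union (An_finite hT hd hreg _ _ _ _))
    (Cn_finite hT hd hreg _ _ _ _) (by
      intro z hz
      have := side hT hxy z
      simp only [Cn, An, mem_ofPred_eq, mem_union] at *
      omega)
  have h2 : (An G j (M + 1) x y ∪ An G j M y x) ∪ Cn G 0 M x y = {z | G.dist x z ≤ M + 1} := by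
    ext z
    have := side hT hxy z
    simp only [Cn, An, mem_ofPred_eq, mem_union]
    omega
  have h3 : Cn G j M x y ∪ Cn G 0 M x y = Cn G 0 M x y := by
    ext z
    simp only [Cn, mem_ofPred_eq, mem_union]
    omega
  rw [h2, h3, P.add _ _ (An_finite hT hd hreg _ _ _ _) (An_finite hT hd hreg _ _ _ _),
    An_transfer hT hd hreg P j M hxy hxy.symm] at h1
  · linarith
  · intro a ha b hb
    have h2 := dist_across hT hxy _ a b rfl ha.2.2 hb.2.2
    have h3 := ha.1
    have h4 := hb.1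
    omega

/-- the gain `κ` -/
theorem kappa_succ {x y : V} (hxy : G.Adj x y) {i M : ℕ} (hi : i ≤ M) :
    ((d : ℝ) - 1) * (H (Cn G (i + 1) (M + 1) x y ∪ An G i i x y) -
      H (Cn G (i + 1) (M + 1) x y)) ≤
    H (Cn G (i + 2) M x y ∪ An G (i + 1) (i + 1) x y) - H (Cn G (i + 2) M x y) := by
  obtain ⟨s, hs, hcard⟩ := exists_children hT hd hreg hxy
  rw [An_succ hT i i hxy hs, ← hcard]
  apply P.gain_family s (fun w => An G i i w x) (Cn G (i + 2) M x y) _
    (fun w => Cn G (i + 1) (M + 1) w x) (fun w _ => An_finite hT hd hreg _ _ _ _)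
    (fun w _ => Cn_finite hT hd hreg _ _ _ _) (Cn_finite hT hd hreg _ _ _ _)
  · intro w hw z hz
    have h1 := side hT hxy z
    have h2 := side hT ((hs w).1 hw).1 z
    simp only [Cn, mem_ofPred_eq] at *
    omega
  · intro w hw w' hw' hne z hz
    have h1 : G.dist w z = G.dist x z + 1 := by
      rcases side hT ((hs w).1 hw).1 z with h | h
      · exact h
      · exfalso
        apply hne
        refine tree_parent hT (o := z) ((hs w).1 hw).1.symm ((hs w').1 hw').1.symm ?_ ?_
        · rw [G.dist_comm (u := z) (v := x), G.dist_comm (u := z) (v := w)]; exact h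
        · rw [G.dist_comm (u := z) (v := x), G.dist_comm (u := z) (v := w')]; exact hz.2.2
    simp only [Cn, An, mem_ofPred_eq] at *
    omega
  · intro w hw
    rw [CA_transfer hT hd hreg P i (M + 1) hxy ((hs w).1 hw).1.symm,
      Cn_transfer hT hd hreg P (i + 1) (M + 1) hxy ((hs w).1 hw).1.symm]

theorem kappa_top {x y : V} (hxy : G.Adj x y) {j M : ℕ} (hM : j ≤ M) :
    H (Cn G (j + 1) M x y ∪ An G j j x y) - H (Cn G (j + 1) M x y) ≤
      H (An G j M x y) - H (An G (j + 1) M x y) := by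
  have h1 := P.gain (A := An G (j + 1) M x y) (T := Cn G (j + 1) M x y)
    (K := An G j j x y) (Cn_finite hT hd hreg _ _ _ _) (An_finite hT hd hreg _ _ _ _) (by
      intro z hz
      simp only [Cn, An, mem_ofPred_eq] at *
      omega)
  have h2 : An G (j + 1) M x y ∪ An G j j x y = An G j M x y := by
    ext z
    simp only [An, mem_ofPred_eq, mem_union]
    omega
  rw [h2] at h1
  linarith

theorem shell_le {x y : V} (hxy : G.Adj x y) {i M : ℕ} (hM : i ≤ M) :
    H (Cn G i M x y) - H (Cn G (i + 1) M x y) ≤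
      2 * (H (Cn G (i + 1) M x y ∪ An G i i x y) - H (Cn G (i + 1) M x y)) := by
  have h1 := P.gain (A := Cn G (i + 1) M x y) (T := Cn G (i + 1) M x y ∪ An G i i x y)
    (K := An G i i y x) ((Cn_finite hT hd hreg _ _ _ _).union (An_finite hT hd hreg _ _ _ _))
    (An_finite hT hd hreg _ _ _ _) subset_union_left
  have h2 : (Cn G (i + 1) M x y ∪ An G i i x y) ∪ An G i i y x = Cn G i M x y := by
    ext z
    have := side hT hxy z
    simp only [An, Cn, mem_ofPred_eq, mem_union]
    omega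
  have h3 : H (Cn G (i + 1) M x y ∪ An G i i y x) = H (Cn G (i + 1) M x y ∪ An G i i x y) := by
    rw [← CA_transfer hT hd hreg P i M hxy hxy.symm]
    congr 2
    ext z
    simp only [Cn, mem_ofPred_eq]
    omega
  rw [h2, h3] at h1
  linarith

theorem kappa_anti {x y : V} {i M M' : ℕ} (hM : M ≤ M') :
    H (Cn G (i + 1) M' x y ∪ An G i i x y) - H (Cn G (i + 1) M' x y) ≤
      H (Cn G (i + 1) M x y ∪ An G i i x y) - H (Cn G (i + 1) M x y) := by
  have h1 := P.gain (A := Cn G (i + 1) M x y) (T := Cn G (i + 1) M' x y)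
    (K := An G i i x y) (Cn_finite hT hd hreg _ _ _ _) (An_finite hT hd hreg _ _ _ _) (by
      intro z hz
      simp only [Cn, mem_ofPred_eq] at *
      omega)
  linarith

theorem eta_anti {x y : V} {j M M' : ℕ} (hj : j ≤ M) (hM : M ≤ M') :
    H (An G j M' x y) - H (An G (j + 1) M' x y) ≤
      H (An G j M x y) - H (An G (j + 1) M x y) := by
  have h1 := P.gain (A := An G (j + 1) M x y) (T := An G (j + 1) M' x y)
    (K := An G j j x y) (An_finite hT hd hreg _ _ _ _) (An_finite hT hd hreg _ _ _ _) (by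
      intro z hz
      simp only [An, mem_ofPred_eq] at *
      omega)
  have h2 : An G (j + 1) M x y ∪ An G j j x y = An G j M x y := by
    ext z
    simp only [An, mem_ofPred_eq, mem_union]
    omega
  have h3 : An G (j + 1) M' x y ∪ An G j j x y = An G j M' x y := by
    ext z
    simp only [An, mem_ofPred_eq, mem_union]
    omega
  rw [h2, h3] at h1
  linarith

theorem theta_anti {x y : V} {j M M' : ℕ} (hj : j ≤ M) (hM : M ≤ M') :
    H (Cn G 0 M' x y) - H (Cn G j M' x y) ≤ H (Cn G 0 M x y) - H (Cn G j M x y) := by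
  have h1 := P.gain (A := Cn G j M x y) (T := Cn G j M' x y)
    (K := Cn G 0 M x y) (Cn_finite hT hd hreg _ _ _ _) (Cn_finite hT hd hreg _ _ _ _) (by
      intro z hz
      simp only [Cn, mem_ofPred_eq] at *
      omega)
  have h2 : Cn G j M x y ∪ Cn G 0 M x y = Cn G 0 M x y := by
    ext z
    simp only [Cn, mem_ofPred_eq, mem_union]
    omega
  have h3 : Cn G j M' x y ∪ Cn G 0 M x y = Cn G 0 M' x y := by
    ext z
    simp only [Cn, mem_ofPred_eq, mem_union]
    omega
  rw [h2, h3] at h1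
  linarith

theorem kappa_iter {x y : V} (hxy : G.Adj x y) (n : ℕ) : ∀ {i M : ℕ}, i + n ≤ M →
    ((d : ℝ) - 1) ^ n * (H (Cn G (i + 1) (M + n) x y ∪ An G i i x y) -
      H (Cn G (i + 1) (M + n) x y)) ≤
    H (Cn G (i + n + 1) M x y ∪ An G (i + n) (i + n) x y) - H (Cn G (i + n + 1) M x y) := by
  have hd' : (0 : ℝ) ≤ (d : ℝ) - 1 := by
    have : (3 : ℝ) ≤ d := by exact_mod_cast hd
    linarith
  induction n with
  | zero =>
    intro i M _
    simp
  | succ n ih =>
    intro i M hi
    have h1 := kappa_succ hT hd hreg P hxy (i := i) (M := M + n) (by omega)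
    have h2 := ih (i := i + 1) (M := M) (by omega)
    have e1 : i + 1 + n = i + (n + 1) := by ring
    rw [e1] at h2
    have h3 := mul_le_mul_of_nonneg_left h1 (pow_nonneg hd' n)
    rw [← mul_assoc, ← pow_succ] at h3
    exact h3.trans h2

theorem theta_le {x y : V} (hxy : G.Adj x y) {j M : ℕ} (hM : j ≤ M) :
    ((d : ℝ) - 2) * (d - 1) ^ j * (H (Cn G 0 (M + j) x y) - H (Cn G j (M + j) x y)) ≤
      2 * ((d - 1) ^ j - 1) * (H (An G j M x y) - H (An G (j + 1) M x y)) := by
  have hd3 : (3 : ℝ) ≤ d := by exact_mod_cast hd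
  have hd' : (0 : ℝ) ≤ (d : ℝ) - 1 := by linarith
  set η := H (An G j M x y) - H (An G (j + 1) M x y) with hη
  have key : ∀ n, n ≤ j →
      ((d : ℝ) - 2) * (d - 1) ^ j * (H (Cn G 0 (M + j) x y) - H (Cn G n (M + j) x y)) ≤
      2 * ((d - 1) ^ n - 1) * η := by
    intro n
    induction n with
    | zero => intro _; simp
    | succ n ih =>
      intro hn
      have h1 := ih (by omega)
      have h2 := shell_le hT hd hreg P hxy (i := n) (M := M + j) (by omega)
      obtain ⟨l, rfl⟩ : ∃ l, j = n + l := ⟨j - n, by omega⟩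
      have h3 := kappa_iter hT hd hreg P hxy l (i := n) (M := M) (by omega)
      have h4 := kappa_top hT hd hreg P hxy hM
      have h5 := kappa_anti hT hd hreg P (x := x) (y := y) (i := n) (M := M + l)
        (M' := M + (n + l)) (by omega)
      set κ := H (Cn G (n + 1) (M + (n + l)) x y ∪ An G n n x y) -
        H (Cn G (n + 1) (M + (n + l)) x y) with hκ
      have h6 : ((d : ℝ) - 1) ^ l * κ ≤ η :=
        (mul_le_mul_of_nonneg_left h5 (pow_nonneg hd' l)).trans (h3.trans h4)
      have h7 : ((d : ℝ) - 1) ^ (n + l) * κ ≤ (d - 1) ^ n * η := by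
        rw [pow_add, mul_assoc]
        exact mul_le_mul_of_nonneg_left h6 (pow_nonneg hd' n)
      have h8 := mul_le_mul_of_nonneg_left h2
        (show 0 ≤ ((d : ℝ) - 2) * (d - 1) ^ (n + l) by
          apply mul_nonneg (by linarith) (pow_nonneg hd' _))
      have h9 := mul_le_mul_of_nonneg_left h7 (show 0 ≤ 2 * ((d : ℝ) - 2) by linarith)
      rw [pow_succ]
      nlinarith [h1, h8, h9]
  exact key j le_rfl

theorem An_nonempty : ∀ (i : ℕ) {x y : V}, G.Adj x y → (An G i i x y).Nonempty := by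
  intro i
  induction i with
  | zero =>
    intro x y hxy
    refine ⟨x, by simp, by simp, ?_⟩
    rw [SimpleGraph.dist_self, G.dist_comm]
    exact SimpleGraph.dist_eq_one_iff_adj.2 hxy
  | succ i ih =>
    intro x y hxy
    obtain ⟨s, hs, hcard⟩ := exists_children hT hd hreg hxy
    have hd3 : (3 : ℝ) ≤ d := by exact_mod_cast hd
    have hne : s.Nonempty := by
      rw [← Finset.card_pos]
      have : (0 : ℝ) < s.card := by rw [hcard]; linarith
      exact_mod_cast this
    obtain ⟨w, hw⟩ := hne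
    obtain ⟨z, hz⟩ := ih ((hs w).1 hw).1.symm
    refine ⟨z, ?_⟩
    rw [An_succ hT i i hxy hs]
    exact Set.mem_iUnion₂.2 ⟨w, hw, hz⟩

/-- if `η → 0` then `H` vanishes on singletons -/
theorem trivial_of_eta {x y : V} (hxy : G.Adj x y) {j : ℕ} (hj : m ≤ 2 * j)
    (hη : Tendsto (fun M => H (An G j M x y) - H (An G (j + 1) M x y)) atTop (𝓝 0)) (v : V) :
    H {v} = 0 := by
  have h1 : ∀ l : ℕ, Tendsto (fun M => H (An G (j + l) M x y) - H (An G (j + l + 1) M x y))
      atTop (𝓝 0) := by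
    intro l
    induction l with
    | zero => exact hη
    | succ l ih =>
      rw [← tendsto_add_atTop_iff_nat 1]
      have h2 : (fun M => H (An G (j + (l + 1)) (M + 1) x y) -
          H (An G (j + (l + 1) + 1) (M + 1) x y)) =
          fun M => ((d : ℝ) - 1) * (H (An G (j + l) M x y) - H (An G (j + l + 1) M x y)) := by
        ext M
        have e1 : j + (l + 1) = (j + l) + 1 := by ring
        rw [e1, level hT hd hreg P hxy (l := j + l) (by omega),
          level hT hd hreg P hxy (l := j + l + 1) (by omega)]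
        ring
      rw [h2]
      simpa using ih.const_mul ((d : ℝ) - 1)
  have h2 : ∀ l : ℕ, Tendsto (fun M => H (An G j M x y) - H (An G (j + l) M x y))
      atTop (𝓝 0) := by
    intro l
    induction l with
    | zero => simp
    | succ l ih =>
      have := ih.add (h1 l)
      rw [add_zero] at this
      refine this.congr (fun M => ?_)
      rw [add_assoc j l 1]
      ring
  have h3 : H (An G j j x y) ≤ 0 := by
    refine ge_of_tendsto (h2 (m + 1)) ?_
    filter_upwards [eventually_ge_atTop j] with M hM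
    have h4 := P.add (An G j j x y) (An G (j + (m + 1)) M x y) (An_finite hT hd hreg _ _ _ _)
      (An_finite hT hd hreg _ _ _ _) (by
        intro a ha b hb
        have h5 := hT.1.dist_triangle (u := x) (v := a) (w := b)
        have h6 := ha.2.1
        have h7 := hb.1
        omega)
    have h5 := P.mono (An G j j x y ∪ An G (j + (m + 1)) M x y) (An G j M x y)
      (An_finite hT hd hreg _ _ _ _) (by
        intro z hz
        simp only [An, mem_ofPred_eq, mem_union] at *
        omega)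
    linarith
  obtain ⟨w, hw⟩ := An_nonempty hT hd hreg P j hxy
  have h4 : H {w} = 0 := by
    have h5 := P.mono {w} _ (An_finite hT hd hreg _ _ _ _) (Set.singleton_subset_iff.2 hw)
    have h6 := P.mono ∅ {w} (Set.finite_singleton w) (Set.empty_subset _)
    rw [P.empty] at h6
    linarith
  obtain ⟨s, hs, hcard⟩ := exists_nbrs hT hd hreg v
  obtain ⟨s', hs', hcard'⟩ := exists_nbrs hT hd hreg w
  obtain ⟨v', hv'⟩ : s.Nonempty := Finset.card_pos.1 (by omega)
  obtain ⟨w', hw'⟩ : s'.Nonempty := Finset.card_pos.1 (by omega)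
  obtain ⟨g, hg, -⟩ := exists_auto hT (by omega) hreg ((hs' w').1 hw') ((hs v').1 hv')
  have h5 := P.inv g {w} (Set.finite_singleton w)
  rw [Set.image_singleton, hg] at h5
  rw [h5, h4]

/-- `f_{M+1} ≤ s_M` -/
theorem step_one {x y : V} (hxy : G.Adj x y) (M : ℕ) :
    H (Cn G 0 (M + 1) x y) + H (Cn G 0 M x y) ≤ 2 * H {z | G.dist x z ≤ M + 1} := by
  have h1 := P.submod {z | G.dist x z ≤ M + 1} {z | G.dist y z ≤ M + 1}
    (fin_of hT hd hreg x x (M + 1) (fun z hz => Or.inl hz))
    (fin_of hT hd hreg y y (M + 1) (fun z hz => Or.inl hz))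
  have h2 : {z | G.dist x z ≤ M + 1} ∪ {z | G.dist y z ≤ M + 1} = Cn G 0 (M + 1) x y := by
    ext z
    simp only [Cn, mem_ofPred_eq, mem_union]
    omega
  have h3 : {z | G.dist x z ≤ M + 1} ∩ {z | G.dist y z ≤ M + 1} = Cn G 0 M x y := by
    ext z
    have := side hT hxy z
    simp only [Cn, mem_ofPred_eq, mem_inter_iff]
    omega
  rw [h2, h3, ball_transfer hT hd hreg P (M + 1) hxy hxy.symm] at h1
  linarith

/-- `s_M ≤ f_M` -/
theorem step_two {x y : V} (hxy : G.Adj x y) (M : ℕ) :
    H {z | G.dist x z ≤ M + 1} ≤ d * H (Cn G 0 M x y) - (d - 1) * H {z | G.dist x z ≤ M} := by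
  obtain ⟨s, hs, hcard⟩ := exists_nbrs hT hd hreg x
  have h1 := P.sunflower s (Finset.card_pos.1 (by omega)) (fun w => Cn G 0 M x w)
    {z | G.dist x z ≤ M} (fun w _ => Cn_finite hT hd hreg _ _ _ _)
    (fun w _ z hz => ⟨Or.inl hz, by simp, by simp⟩) (by
      intro w hw w' hw' hne z hz
      by_contra hcon
      have hz1 : G.dist x z ≤ M ∨ G.dist w z ≤ M := hz.1.1
      have hz2 : G.dist x z ≤ M ∨ G.dist w' z ≤ M := hz.2.1
      have hcon' : ¬ G.dist x z ≤ M := hcon
      have s1 := side hT ((hs w).1 hw) z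
      have s2 := side hT ((hs w').1 hw') z
      apply hne
      refine tree_parent hT (o := z) ((hs w).1 hw).symm ((hs w').1 hw').symm ?_ ?_
      · rw [G.dist_comm (u := z) (v := x), G.dist_comm (u := z) (v := w)]; omega
      · rw [G.dist_comm (u := z) (v := x), G.dist_comm (u := z) (v := w')]; omega)
  have h2 : (⋃ w ∈ s, Cn G 0 M x w) = {z | G.dist x z ≤ M + 1} := by
    ext z
    rw [Set.mem_iUnion₂]
    constructor
    · rintro ⟨w, hw, h⟩
      have h3 := side hT ((hs w).1 hw) z
      simp only [Cn, mem_ofPred_eq] at *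
      omega
    · intro hz
      have hz' : G.dist x z ≤ M + 1 := hz
      by_cases hzx : x = z
      · refine ⟨y, (hs y).2 hxy, ?_, by simp, by simp⟩
        left
        rw [hzx, SimpleGraph.dist_self]
        omega
      · obtain ⟨w, hw, e⟩ := first_step hT.1 hzx
        exact ⟨w, (hs w).2 hw, Or.inr (by omega), by simp, by simp⟩
  rw [h2, Finset.sum_congr rfl (fun w hw => Cn_transfer hT hd hreg P 0 M hxy ((hs w).1 hw)),
    Finset.sum_const, nsmul_eq_mul, hcard] at h1
  exact h1

/-- the main inequality -/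
theorem poly_main {x y : V} (hxy : G.Adj x y) :
    ∃ c : ℝ, 0 ≤ c ∧ ((∃ v, H {v} ≠ 0) → 0 < c) ∧ ∀ M : ℕ,
      c ≤ (d / 2 : ℝ) * H (Cn G 0 M x y) - (d - 1) * H {z | G.dist x z ≤ M} ∧
      c ≤ H {z | G.dist x z ≤ M + 1} - (d / 2 : ℝ) * H (Cn G 0 M x y) := by
  have hd3 : (3 : ℝ) ≤ d := by exact_mod_cast hd
  have hd' : (0 : ℝ) < (d : ℝ) - 1 := by linarith
  set j := m with hjdef
  have hj : m ≤ 2 * j := by omega
  set η : ℕ → ℝ := fun n => H (An G j (n + j) x y) - H (An G (j + 1) (n + j) x y) with hη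
  set θ : ℕ → ℝ := fun n => H (Cn G 0 (n + j) x y) - H (Cn G j (n + j) x y) with hθ
  set f : ℕ → ℝ := fun M => (d / 2 : ℝ) * H (Cn G 0 M x y) - (d - 1) * H {z | G.dist x z ≤ M}
    with hf
  set s : ℕ → ℝ := fun M => H {z | G.dist x z ≤ M + 1} - (d / 2 : ℝ) * H (Cn G 0 M x y) with hs
  have f1 : ∀ M, f (M + 1) ≤ s M := by
    intro M
    have h1 := step_one hT hd hreg P hxy M
    have h2 := mul_le_mul_of_nonneg_left h1 (show (0 : ℝ) ≤ d / 2 by linarith)
    simp only [hf, hs]
    linarith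
  have f2 : ∀ M, s M ≤ f M := by
    intro M
    have h1 := step_two hT hd hreg P hxy M
    simp only [hf, hs]
    linarith
  have f3 : Antitone f := antitone_nat_of_succ_le (fun M => (f1 M).trans (f2 M))
  have η0 : ∀ n, 0 ≤ η n := by
    intro n
    have := P.mono (An G (j + 1) (n + j) x y) (An G j (n + j) x y)
      (An_finite hT hd hreg _ _ _ _) (by
        intro z hz
        simp only [An, mem_ofPred_eq] at *
        omega)
    simp only [hη]
    linarith
  have θ0 : ∀ n, 0 ≤ θ n := by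
    intro n
    have := P.mono (Cn G j (n + j) x y) (Cn G 0 (n + j) x y)
      (Cn_finite hT hd hreg _ _ _ _) (by
        intro z hz
        simp only [Cn, mem_ofPred_eq] at *
        omega)
    simp only [hθ]
    linarith
  have ηa : Antitone η := by
    intro n n' hn
    exact eta_anti hT hd hreg P (by omega) (by omega)
  have θa : Antitone θ := by
    intro n n' hn
    exact theta_anti hT hd hreg P (by omega) (by omega)
  have ηl : Tendsto η atTop (𝓝 (⨅ n, η n)) :=
    tendsto_atTop_ciInf ηa ⟨0, by rintro _ ⟨n, rfl⟩; exact η0 n⟩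
  have θl : Tendsto θ atTop (𝓝 (⨅ n, θ n)) :=
    tendsto_atTop_ciInf θa ⟨0, by rintro _ ⟨n, rfl⟩; exact θ0 n⟩
  set η' := ⨅ n, η n with hη'
  set θ' := ⨅ n, θ n with hθ'
  have η'0 : 0 ≤ η' := ge_of_tendsto' ηl η0
  have k1 : ((d : ℝ) - 2) * (d - 1) ^ j * θ' ≤ 2 * ((d - 1) ^ j - 1) * η' := by
    have h1 : Tendsto (fun n => ((d : ℝ) - 2) * (d - 1) ^ j * θ (n + j)) atTop
        (𝓝 (((d : ℝ) - 2) * (d - 1) ^ j * θ')) :=
      ((tendsto_add_atTop_iff_nat j).2 θl).const_mul _
    have h2 : Tendsto (fun n => 2 * (((d : ℝ) - 1) ^ j - 1) * η n) atTop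
        (𝓝 (2 * (((d : ℝ) - 1) ^ j - 1) * η')) := ηl.const_mul _
    refine le_of_tendsto_of_tendsto' h1 h2 (fun n => ?_)
    exact theta_le hT hd hreg P hxy (j := j) (M := n + j) (by omega)
  have k2 : ∀ n, η (n + 1) + (d / 2 : ℝ) * θ (n + 1) - (d - 1) * θ n ≤ f (n + j + 1) := by
    intro n
    have h1 := Cn_eq hT hd hreg P hxy hj (n + j + 1)
    have h2 := Cn_eq hT hd hreg P hxy hj (n + j)
    have h3 := ball_le hT hd hreg P hxy hj (M := n + j) (by omega)
    have h4 := level hT hd hreg P hxy (l := j) hj (n + j)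
    have h5 := mul_le_mul_of_nonneg_left h3 hd'.le
    have e1 : n + 1 + j = n + j + 1 := by ring
    simp only [hη, hθ, hf, e1]
    rw [h1, h4]
    rw [h2] at h5 ⊢
    nlinarith [h5]
  have k3 : ∀ M, η' - ((d : ℝ) - 2) / 2 * θ' ≤ f M := by
    intro M
    have h1 : Tendsto (fun n => η (n + 1) + (d / 2 : ℝ) * θ (n + 1) - (d - 1) * θ n) atTop
        (𝓝 (η' + (d / 2 : ℝ) * θ' - (d - 1) * θ')) :=
      (((tendsto_add_atTop_iff_nat 1).2 ηl).add
        (((tendsto_add_atTop_iff_nat 1).2 θl).const_mul _)).sub (θl.const_mul _)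
    have h2 : η' + (d / 2 : ℝ) * θ' - (d - 1) * θ' ≤ f M := by
      refine le_of_tendsto h1 ?_
      filter_upwards [eventually_ge_atTop M] with n hn
      exact (k2 n).trans (f3 (by omega))
    linarith
  have hpow : (0 : ℝ) < (d - 1) ^ j := pow_pos hd' j
  have k4 : ∀ M, η' / (d - 1) ^ j ≤ f M := by
    intro M
    rw [div_le_iff₀ hpow]
    have h1 := mul_le_mul_of_nonneg_right (k3 M) hpow.le
    nlinarith [h1, k1]
  refine ⟨η' / (d - 1) ^ j, div_nonneg η'0 hpow.le, ?_, fun M => ⟨k4 M, (k4 (M + 1)).trans (f1 M)⟩⟩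
  rintro ⟨v, hv⟩
  refine div_pos (lt_of_le_of_ne η'0 (fun h => hv ?_)) hpow
  apply trivial_of_eta hT hd hreg P hxy hj
  rw [← tendsto_add_atTop_iff_nat j, h]
  exact ηl

end

end Pool.Agent.FinDep
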