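import Mathlib
import Pool.Agent.Lib.MP_d9cd68_pr.Poly

/-!
# Shannon entropy of the restrictions of a random configuration to finite sets
-/

set_option autoImplicit false

open MeasureTheory Set Real

namespace Pool.Agent.FinDep

/-! ### Entropy of maps with finitely many values -/

section

variable {Ω : Type} [MeasurableSpace Ω] (μ : Measure Ω)

/-- Shannon entropy of a map with values in a finite type -/
noncomputable def HX {T : Type} (X : Ω → T) : ℝ := ∑' t, negMulLog (μ.real (X ⁻¹' {t}))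

theorem HX_congr {T U : Type} [Finite T] [Finite U] (X : Ω → T) (Y : Ω → U)
    (h : ∀ ω ω', X ω = X ω' ↔ Y ω = Y ω') : HX μ X = HX μ Y := by
  classical
  have := Fintype.ofFinite T
  have := Fintype.ofFinite U
  have ne : ∀ {T : Type} (X : Ω → T) (t : T), negMulLog (μ.real (X ⁻¹' {t})) ≠ 0 →
      ∃ ω, X ω = t := by
    intro T X t ht
    by_contra hcon
    push Not at hcon
    apply ht
    have : X ⁻¹' {t} = ∅ := by
      ext ω
      simp [hcon ω]
    simp [this]
  have fib : ∀ ω, X ⁻¹' {X ω} = Y ⁻¹' {Y ω} := by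
    intro ω
    ext ω'
    simp only [mem_preimage, mem_singleton_iff]
    exact h ω' ω
  unfold HX
  rw [tsum_fintype, tsum_fintype]
  refine Finset.sum_bij_ne_zero (fun t _ ht => Y (ne X t ht).choose) (fun _ _ _ => Finset.mem_univ _)
    ?_ ?_ ?_
  · intro t1 _ h1 t2 _ h2 e
    have e1 := (ne X t1 h1).choose_spec
    have e2 := (ne X t2 h2).choose_spec
    rw [← e1, ← e2]
    exact (h _ _).2 e
  · intro u _ hu
    obtain ⟨ω, hω⟩ := ne Y u hu
    have h1 : negMulLog (μ.real (X ⁻¹' {X ω})) ≠ 0 := by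
      rw [fib ω, hω]; exact hu
    refine ⟨X ω, Finset.mem_univ _, h1, ?_⟩
    rw [← hω]
    exact (h _ _).1 (ne X (X ω) h1).choose_spec
  · intro t _ ht
    have e1 := (ne X t ht).choose_spec
    rw [← fib, e1]

variable [IsFiniteMeasure μ]

theorem sum_fib {T : Type} [Fintype T] (X : Ω → T) (hX : ∀ t, MeasurableSet (X ⁻¹' {t}))
    (S : Set Ω) (hS : MeasurableSet S) : ∑ t, μ.real (S ∩ X ⁻¹' {t}) = μ.real S := by
  classical
  have h1 : S = ⋃ t ∈ (Finset.univ : Finset T), S ∩ X ⁻¹' {t} := by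
    ext ω
    simp
  conv_rhs => rw [h1]
  rw [measureReal_biUnion_finset]
  · intro t _ t' _ hne
    refine Set.disjoint_left.2 (fun ω h1 h2 => hne ?_)
    rw [← show X ω = t from h1.2, ← show X ω = t' from h2.2]
  · intro t _
    exact hS.inter (hX t)

theorem HX_mono {T U : Type} [Finite T] [Finite U] (X : Ω → T) (Y : Ω → U)
    (hX : ∀ t, MeasurableSet (X ⁻¹' {t})) (hY : ∀ t, MeasurableSet (Y ⁻¹' {t})) :
    HX μ X ≤ HX μ (fun ω => (X ω, Y ω)) := by
  classical
  have := Fintype.ofFinite T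
  have := Fintype.ofFinite U
  unfold HX
  rw [tsum_fintype, tsum_fintype, Fintype.sum_prod_type]
  refine Finset.sum_le_sum (fun t _ => ?_)
  have h1 : ∀ u, (fun ω => (X ω, Y ω)) ⁻¹' {(t, u)} = X ⁻¹' {t} ∩ Y ⁻¹' {u} := by
    intro u
    ext ω
    simp
  have h2 := sum_fib μ Y hY (X ⁻¹' {t}) (hX t)
  simp only [h1]
  have h3 : negMulLog (μ.real (X ⁻¹' {t})) =
      ∑ u, μ.real (X ⁻¹' {t} ∩ Y ⁻¹' {u}) * (- log (μ.real (X ⁻¹' {t}))) := by
    rw [← Finset.sum_mul, h2, negMulLog]
    ring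
  rw [h3]
  refine Finset.sum_le_sum (fun u _ => ?_)
  have h4 : μ.real (X ⁻¹' {t} ∩ Y ⁻¹' {u}) ≤ μ.real (X ⁻¹' {t}) :=
    measureReal_mono inter_subset_left
  have h5 : 0 ≤ μ.real (X ⁻¹' {t} ∩ Y ⁻¹' {u}) := measureReal_nonneg
  rcases h5.eq_or_lt with h6 | h6
  · rw [← h6]; simp
  · have h7 := Real.log_le_log h6 h4
    rw [negMulLog]
    nlinarith [h5, h7]

theorem nml_sub {p q r s : ℝ} (hp : 0 ≤ p) (hq : p ≤ q) (hr : p ≤ r) (hs : q ≤ s) :
    negMulLog p + p * (- log s) ≤ p * (- log q) + p * (- log r) + (q * r / s - p) := by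
  rcases hp.eq_or_lt with h0 | h0
  · rw [← h0] at hq hr ⊢
    have : 0 ≤ q * r / s := div_nonneg (mul_nonneg hq hr) (hq.trans hs)
    simp only [negMulLog]
    linarith
  · have hq0 : 0 < q := by linarith
    have hr0 : 0 < r := by linarith
    have hs0 : 0 < s := by linarith
    have h1 := Real.one_sub_inv_le_log_of_pos (x := p * s / (q * r)) (by positivity)
    rw [Real.log_div (by positivity) (by positivity), Real.log_mul h0.ne' hs0.ne',
      Real.log_mul hq0.ne' hr0.ne'] at h1
    have h2 := mul_le_mul_of_nonneg_left h1 hp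
    have h3 : p * (1 - (p * s / (q * r))⁻¹) = p - q * r / s := by
      field_simp
    rw [h3] at h2
    rw [negMulLog]
    nlinarith [h2]

/-- submodularity of entropy, for arrays -/
theorem nml_array {A B C : Type} [Fintype A] [Fintype B] [Fintype C] (p : A → B → C → ℝ)
    (hp : ∀ a b c, 0 ≤ p a b c) :
    ∑ a, ∑ b, ∑ c, negMulLog (p a b c) + ∑ c, negMulLog (∑ a, ∑ b, p a b c) ≤
      ∑ a, ∑ c, negMulLog (∑ b, p a b c) + ∑ b, ∑ c, negMulLog (∑ a, p a b c) := by
  set q : A → C → ℝ := fun a c => ∑ b, p a b c with hq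
  set r : B → C → ℝ := fun b c => ∑ a, p a b c with hr
  set s : C → ℝ := fun c => ∑ a, ∑ b, p a b c with hs
  have hqs : ∀ c, ∑ a, q a c = s c := fun c => rfl
  have hrs : ∀ c, ∑ b, r b c = s c := by
    intro c
    simp only [hr, hs]
    exact Finset.sum_comm
  have h1 : ∀ a b c, negMulLog (p a b c) + p a b c * (- log (s c)) ≤
      p a b c * (- log (q a c)) + p a b c * (- log (r b c)) +
        (q a c * r b c / s c - p a b c) := by
    intro a b c
    apply nml_sub (hp a b c)
    · exact Finset.single_le_sum (f := fun b => p a b c) (fun b _ => hp a b c) (Finset.mem_univ b)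
    · exact Finset.single_le_sum (f := fun a => p a b c) (fun a _ => hp a b c) (Finset.mem_univ a)
    · exact Finset.single_le_sum (f := fun a => q a c)
        (fun a _ => Finset.sum_nonneg (fun b _ => hp a b c)) (Finset.mem_univ a)
  have h2 := Finset.sum_le_sum (s := (Finset.univ : Finset C)) (fun c _ =>
    Finset.sum_le_sum (s := (Finset.univ : Finset A)) (fun a _ =>
      Finset.sum_le_sum (s := (Finset.univ : Finset B)) (fun b _ => h1 a b c)))
  simp only [Finset.sum_add_distrib, Finset.sum_sub_distrib] at h2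
  have e1 : ∑ c, ∑ a, ∑ b, negMulLog (p a b c) = ∑ a, ∑ b, ∑ c, negMulLog (p a b c) := by
    rw [Finset.sum_comm]
    exact Finset.sum_congr rfl (fun a _ => Finset.sum_comm)
  have e2 : ∑ c, ∑ a, ∑ b, p a b c * (- log (s c)) = ∑ c, negMulLog (s c) := by
    refine Finset.sum_congr rfl (fun c _ => ?_)
    simp only [← Finset.sum_mul]
    rw [negMulLog]
    show s c * _ = _
    ring
  have e3 : ∑ c, ∑ a, ∑ b, p a b c * (- log (q a c)) = ∑ a, ∑ c, negMulLog (q a c) := by
    rw [Finset.sum_comm]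
    refine Finset.sum_congr rfl (fun a _ => Finset.sum_congr rfl (fun c _ => ?_))
    simp only [← Finset.sum_mul]
    rw [negMulLog]
    show q a c * _ = _
    ring
  have e4 : ∑ c, ∑ a, ∑ b, p a b c * (- log (r b c)) = ∑ b, ∑ c, negMulLog (r b c) := by
    rw [Finset.sum_comm (s := (Finset.univ : Finset B))]
    refine Finset.sum_congr rfl (fun c _ => ?_)
    rw [Finset.sum_comm]
    refine Finset.sum_congr rfl (fun b _ => ?_)
    rw [← Finset.sum_mul, negMulLog]
    show r b c * _ = _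
    ring
  have e5 : ∑ c, ∑ a, ∑ b, q a c * r b c / s c = ∑ c, s c := by
    refine Finset.sum_congr rfl (fun c _ => ?_)
    have : ∀ a, ∑ b, q a c * r b c / s c = q a c * (s c / s c) := by
      intro a
      rw [← Finset.sum_div, ← Finset.mul_sum, hrs, mul_div_assoc]
    simp only [this]
    rw [← Finset.sum_mul, hqs]
    by_cases h : s c = 0
    · simp [h]
    · field_simp
  have e6 : ∑ c, ∑ a, ∑ b, p a b c = ∑ c, s c := rfl
  rw [e1, e2, e3, e4, e5, e6] at h2
  linarith

theorem HX_submod {A B C : Type} [Finite A] [Finite B] [Finite C] (X : Ω → A) (Y : Ω → B)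
    (Z : Ω → C) (hX : ∀ t, MeasurableSet (X ⁻¹' {t})) (hY : ∀ t, MeasurableSet (Y ⁻¹' {t}))
    (hZ : ∀ t, MeasurableSet (Z ⁻¹' {t})) :
    HX μ (fun ω => (X ω, Y ω, Z ω)) + HX μ Z ≤
      HX μ (fun ω => (X ω, Z ω)) + HX μ (fun ω => (Y ω, Z ω)) := by
  classical
  have := Fintype.ofFinite A
  have := Fintype.ofFinite B
  have := Fintype.ofFinite C
  have h := nml_array (fun a b c => μ.real (X ⁻¹' {a} ∩ Y ⁻¹' {b} ∩ Z ⁻¹' {c}))
    (fun a b c => measureReal_nonneg)
  have e1 : ∀ a c, ∑ b, μ.real (X ⁻¹' {a} ∩ Y ⁻¹' {b} ∩ Z ⁻¹' {c}) =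
      μ.real (X ⁻¹' {a} ∩ Z ⁻¹' {c}) := by
    intro a c
    rw [← sum_fib μ Y hY _ ((hX a).inter (hZ c))]
    refine Finset.sum_congr rfl (fun b _ => ?_)
    congr 1
    ext ω
    simp only [mem_inter_iff]
    tauto
  have e2 : ∀ b c, ∑ a, μ.real (X ⁻¹' {a} ∩ Y ⁻¹' {b} ∩ Z ⁻¹' {c}) =
      μ.real (Y ⁻¹' {b} ∩ Z ⁻¹' {c}) := by
    intro b c
    rw [← sum_fib μ X hX _ ((hY b).inter (hZ c))]
    refine Finset.sum_congr rfl (fun a _ => ?_)
    congr 1
    ext ω
    simp only [mem_inter_iff]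
    tauto
  have e3 : ∀ c, ∑ a, μ.real (X ⁻¹' {a} ∩ Z ⁻¹' {c}) = μ.real (Z ⁻¹' {c}) := by
    intro c
    rw [← sum_fib μ X hX _ (hZ c)]
    refine Finset.sum_congr rfl (fun a _ => ?_)
    rw [inter_comm]
  simp only [e1, e2, e3] at h
  unfold HX
  rw [tsum_fintype, tsum_fintype, tsum_fintype, tsum_fintype]
  simp only [Fintype.sum_prod_type]
  have f1 : ∀ a b c, (fun ω => (X ω, Y ω, Z ω)) ⁻¹' {(a, b, c)} =
      X ⁻¹' {a} ∩ Y ⁻¹' {b} ∩ Z ⁻¹' {c} := by
    intro a b c
    ext ω
    simp [and_assoc]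
  have f2 : ∀ a c, (fun ω => (X ω, Z ω)) ⁻¹' {(a, c)} = X ⁻¹' {a} ∩ Z ⁻¹' {c} := by
    intro a c
    ext ω
    simp
  have f3 : ∀ b c, (fun ω => (Y ω, Z ω)) ⁻¹' {(b, c)} = Y ⁻¹' {b} ∩ Z ⁻¹' {c} := by
    intro a c
    ext ω
    simp
  simp only [f1, f2, f3]
  exact h

end

theorem HX_indep {Ω : Type} [MeasurableSpace Ω] (μ : Measure Ω) [IsProbabilityMeasure μ]
    {A B : Type} [Finite A] [Finite B] (X : Ω → A) (Y : Ω → B)
    (hX : ∀ t, MeasurableSet (X ⁻¹' {t})) (hY : ∀ t, MeasurableSet (Y ⁻¹' {t}))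
    (h : ∀ a b, μ.real (X ⁻¹' {a} ∩ Y ⁻¹' {b}) = μ.real (X ⁻¹' {a}) * μ.real (Y ⁻¹' {b})) :
    HX μ (fun ω => (X ω, Y ω)) = HX μ X + HX μ Y := by
  classical
  have := Fintype.ofFinite A
  have := Fintype.ofFinite B
  unfold HX
  rw [tsum_fintype, tsum_fintype, tsum_fintype, Fintype.sum_prod_type]
  have f2 : ∀ a b, (fun ω => (X ω, Y ω)) ⁻¹' {(a, b)} = X ⁻¹' {a} ∩ Y ⁻¹' {b} := by
    intro a c
    ext ω
    simp
  have hXs : ∑ a, μ.real (X ⁻¹' {a}) = 1 := by
    have := sum_fib μ X hX univ MeasurableSet.univ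
    simpa using this
  have hYs : ∑ a, μ.real (Y ⁻¹' {a}) = 1 := by
    have := sum_fib μ Y hY univ MeasurableSet.univ
    simpa using this
  simp only [f2, h, negMulLog_mul, Finset.sum_add_distrib]
  congr 1
  · simp only [← Finset.sum_mul]
    rw [hYs]
    simp
  · simp only [← Finset.mul_sum, ← Finset.sum_mul]
    rw [hXs]
    simp

/-! ### Entropy of restrictions -/

section

variable {V : Type} {k : ℕ}

/-- the entropy of the restriction to `A` -/
noncomputable def ent (μ : Measure (V → Fin k)) (A : Set V) : ℝ :=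
  ∑' x : (A → Fin k), negMulLog (μ.real {ω | ∀ a : A, ω a = x a})

/-- the restriction to `A` -/
def rs (k : ℕ) (A : Set V) : (V → Fin k) → (A → Fin k) := fun ω a => ω a

theorem rs_measurable (A : Set V) : Measurable (rs k A) :=
  measurable_pi_lambda _ (fun a => measurable_pi_apply _)

theorem rs_fib (A : Set V) (hA : A.Finite) (x : A → Fin k) :
    MeasurableSet (rs k A ⁻¹' {x}) := by
  have := hA.to_subtype
  exact rs_measurable A (measurableSet_singleton x)

theorem ent_eq (μ : Measure (V → Fin k)) (A : Set V) : ent μ A = HX μ (rs k A) := by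
  unfold ent HX
  congr 1
  ext x
  congr 2
  ext ω
  simp only [mem_ofPred_eq, mem_preimage, mem_singleton_iff, rs, funext_iff]

theorem rs_eq_iff (A : Set V) (ω ω' : V → Fin k) :
    rs k A ω = rs k A ω' ↔ ∀ a ∈ A, ω a = ω' a := by
  simp only [rs, funext_iff, Subtype.forall]

theorem ent_poly {G : SimpleGraph V} (μ : Measure (V → Fin k)) [IsProbabilityMeasure μ]
    (hinv : ∀ g : G ≃g G, μ.map (fun x : V → Fin k => x ∘ ⇑g) = μ) {m : ℕ}
    (hdep : ∀ (p : ℕ) (K : Fin p → Set V),
      (∀ i j : Fin p, i ≠ j → ∀ u ∈ K i, ∀ w ∈ K j, m < G.dist u w) →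
      ProbabilityTheory.iIndep
        (fun i : Fin p => MeasurableSpace.comap
          (fun x : V → Fin k => fun v : K i => x v) MeasurableSpace.pi) μ) :
    Poly G m (ent μ) where
  empty := by
    rw [ent_eq]
    unfold HX
    rw [tsum_eq_single (fun a => absurd a.2 (Set.notMem_empty _))]
    · have : rs k ∅ ⁻¹' {fun a : (∅ : Set V) => absurd a.2 (Set.notMem_empty _)} =
          (univ : Set (V → Fin k)) := by
        ext ω
        simp only [mem_preimage, mem_singleton_iff, mem_univ, iff_true]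
        funext a
        exact absurd a.2 (Set.notMem_empty _)
      rw [this]
      simp
    · intro b hb
      exfalso
      apply hb
      funext a
      exact absurd a.2 (Set.notMem_empty _)
  mono := by
    intro A B hB hAB
    have hA := hB.subset hAB
    have := hA.to_subtype
    have := hB.to_subtype
    rw [ent_eq, ent_eq]
    refine (HX_mono μ (rs k A) (rs k B) (rs_fib A hA) (rs_fib B hB)).trans (le_of_eq ?_)
    apply HX_congr
    intro ω ω'
    simp only [Prod.mk.injEq, rs_eq_iff]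
    constructor
    · exact fun h => h.2
    · exact fun h => ⟨fun a ha => h a (hAB ha), h⟩
  submod := by
    intro A B hA hB
    have hAB := hA.union hB
    have hAB' : (A ∩ B).Finite := hA.subset inter_subset_left
    have := hA.to_subtype
    have := hB.to_subtype
    have := hAB.to_subtype
    have := hAB'.to_subtype
    rw [ent_eq, ent_eq, ent_eq, ent_eq]
    have h := HX_submod μ (rs k A) (rs k B) (rs k (A ∩ B)) (rs_fib A hA) (rs_fib B hB)
      (rs_fib _ hAB')
    have e1 : HX μ (fun ω => (rs k A ω, rs k B ω, rs k (A ∩ B) ω)) = HX μ (rs k (A ∪ B)) := by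
      apply HX_congr
      intro ω ω'
      simp only [Prod.mk.injEq, rs_eq_iff]
      constructor
      · rintro ⟨h1, h2, -⟩ a (ha | ha)
        · exact h1 a ha
        · exact h2 a ha
      · intro h
        exact ⟨fun a ha => h a (Or.inl ha), fun a ha => h a (Or.inr ha),
          fun a ha => h a (Or.inl ha.1)⟩
    have e2 : HX μ (fun ω => (rs k A ω, rs k (A ∩ B) ω)) = HX μ (rs k A) := by
      apply HX_congr
      intro ω ω'
      simp only [Prod.mk.injEq, rs_eq_iff]
      exact ⟨fun h => h.1, fun h => ⟨h, fun a ha => h a ha.1⟩⟩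
    have e3 : HX μ (fun ω => (rs k B ω, rs k (A ∩ B) ω)) = HX μ (rs k B) := by
      apply HX_congr
      intro ω ω'
      simp only [Prod.mk.injEq, rs_eq_iff]
      exact ⟨fun h => h.1, fun h => ⟨h, fun a ha => h a ha.2⟩⟩
    rw [e1, e2, e3] at h
    exact h
  inv := by
    intro g A hA
    have hgA : (g '' A).Finite := hA.image _
    have := hA.to_subtype
    have := hgA.to_subtype
    rw [ent_eq, ent_eq]
    have hm : Measurable (fun x : V → Fin k => x ∘ ⇑g) :=
      measurable_pi_lambda _ (fun a => measurable_pi_apply _)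
    have e1 : HX μ (rs k (g '' A)) = HX μ (fun ω => rs k A (ω ∘ ⇑g)) := by
      apply HX_congr
      intro ω ω'
      simp only [rs_eq_iff, Function.comp_apply, Set.forall_mem_image]
    rw [e1]
    unfold HX
    congr 1
    ext x
    congr 1
    conv_rhs => rw [← hinv g]
    rw [map_measureReal_apply hm (rs_fib A hA x)]
    rfl
  add := by
    intro A B hA hB hsep
    have hAB := hA.union hB
    have := hA.to_subtype
    have := hB.to_subtype
    have := hAB.to_subtype
    rw [ent_eq, ent_eq, ent_eq, ← HX_indep μ (rs k A) (rs k B) (rs_fib A hA) (rs_fib B hB)]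
    · apply HX_congr
      intro ω ω'
      simp only [Prod.mk.injEq, rs_eq_iff]
      constructor
      · intro h
        exact ⟨fun a ha => h a (Or.inl ha), fun a ha => h a (Or.inr ha)⟩
      · rintro ⟨h1, h2⟩ a (ha | ha)
        · exact h1 a ha
        · exact h2 a ha
    · intro a b
      have h1 := hdep 2 ![A, B] (by
        intro i j hij u hu w hw
        fin_cases i <;> fin_cases j
        · exact absurd rfl hij
        · exact hsep u hu w hw
        · rw [G.dist_comm]
          exact hsep w hw u hu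
        · exact absurd rfl hij)
      have h2 := (ProbabilityTheory.Indep_iff _ _ _).1 (h1.indep (i := 0) (j := 1) (by decide))
        (rs k A ⁻¹' {a}) (rs k B ⁻¹' {b}) ⟨{a}, measurableSet_singleton a, rfl⟩
        ⟨{b}, measurableSet_singleton b, rfl⟩
      simp only [Measure.real, h2, ENNReal.toReal_mul]

end

end Pool.Agent.FinDep
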